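import Pool.Agent.Helper64.SPX.Spec

set_option autoImplicit false

open MeasureTheory Filter Topology Set
open scoped InnerProductSpace ENNReal

namespace Pool.Agent.Helper18.SPX.G4

open Pool.Agent.Helper64.SPX

variable {ι : Type} [Fintype ι]

lemma wtile_shift (A : Set (E ι)) (hA : MeasurableSet A) (ν : Measure (E ι)) (s : E ι)
    (h : WTile A ν) (hs : 1 ≤ ν {s}) : WTile A (ν.map (fun τ => τ - s)) := by
  obtain ⟨h1, h2, h3⟩ := h
  haveI := h1
  have hm : Measurable (fun τ : E ι => τ - s) := measurable_id.sub_const s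
  refine ⟨?_, ?_, ?_⟩
  · refine ⟨fun x => ?_⟩
    obtain ⟨U, hU, hU2, hfin⟩ := ν.exists_isOpen_measure_lt_top (x + s)
    have hc : Continuous fun τ : E ι => τ + s := continuous_id.add continuous_const
    refine ⟨(fun τ : E ι => τ + s) ⁻¹' U, (hU2.preimage hc).mem_nhds hU, ?_⟩
    rw [Measure.map_apply hm (hU2.preimage hc).measurableSet]
    have e : (fun τ : E ι => τ - s) ⁻¹' ((fun τ : E ι => τ + s) ⁻¹' U) = U := by
      ext τ
      simp
    rw [e]
    exact hfin
  · have hq : Measure.QuasiMeasurePreserving (fun x : E ι => x + s) volume volume :=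
      (measurePreserving_add_right volume s).quasiMeasurePreserving
    filter_upwards [hq.ae h2] with x hx
    rw [Measure.map_apply hm]
    · have e : (fun τ : E ι => τ - s) ⁻¹' {t | x - t ∈ A} = {t | x + s - t ∈ A} := by
        ext τ
        have : x - (τ - s) = x + s - τ := by abel
        simp only [mem_preimage, mem_ofPred_eq, this]
      rw [e]
      exact hx
    · exact (measurable_const.sub measurable_id) hA
  · rw [Measure.map_apply hm (measurableSet_singleton _)]
    have e : (fun τ : E ι => τ - s) ⁻¹' {0} = {s} := by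
      ext τ
      simp [sub_eq_zero]
    rw [e]
    exact hs

theorem main (hG3 : S_G3) : S_G4 := by
  intro ι _ Q hQ
  obtain ⟨hgood, b, htile, hlat⟩ := hQ
  have hcl : IsClosed Q.body := by
    have : Q.body = ⋂ i, {x | ⟪Q.u i, x⟫_ℝ ≤ Q.h i} := by
      ext x
      simp [HP.body]
    rw [this]
    exact isClosed_iInter fun i => isClosed_le (continuous_const.inner continuous_id) continuous_const
  have hmA : MeasurableSet Q.body := hcl.measurableSet
  have hcomp : IsCompact Q.body := Metric.isCompact_of_isClosed_isBounded hcl hgood.1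
  have hpos : 0 < volume Q.body := by
    obtain ⟨x, hx⟩ := hgood.2.2
    have hopen : IsOpen {x : E ι | ∀ i, ⟪Q.u i, x⟫_ℝ < Q.h i} := by
      have : {x : E ι | ∀ i, ⟪Q.u i, x⟫_ℝ < Q.h i} = ⋂ i, {x | ⟪Q.u i, x⟫_ℝ < Q.h i} := by
        ext x
        simp
      rw [this]
      exact isOpen_iInter_of_finite fun i =>
        isOpen_lt (continuous_const.inner continuous_id) continuous_const
    have h1 : 0 < volume {x : E ι | ∀ i, ⟪Q.u i, x⟫_ℝ < Q.h i} := hopen.measure_pos volume ⟨x, hx⟩
    exact h1.trans_le (measure_mono fun y hy i => (hy i).le)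
  refine ⟨hcomp, hpos, b, htile, ?_⟩
  have hP : ∀ t ∈ AddSubmonoid.closure {t | ∃ i, Q.Locked i t}, ∀ ν : Measure (E ι),
      WTile Q.body ν → 1 ≤ ν {t} := by
    intro t ht
    induction ht using AddSubmonoid.closure_induction with
    | mem t ht =>
      intro ν hν
      obtain ⟨i, hi⟩ := ht
      exact hG3 ι Q hgood ν hν i t hi
    | zero =>
      intro ν hν
      exact hν.2.2
    | add s t _ _ hs ht =>
      intro ν hν
      have h1 := ht _ (wtile_shift Q.body hmA ν s hν (hs ν hν))
      have hm : Measurable (fun τ : E ι => τ - s) := measurable_id.sub_const s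
      rw [Measure.map_apply hm (measurableSet_singleton _)] at h1
      have e : (fun τ : E ι => τ - s) ⁻¹' {t} = {s + t} := by
        ext τ
        simp [sub_eq_iff_eq_add, add_comm]
      rw [e] at h1
      exact h1
  intro ν hν
  have hP' : ∀ l ∈ lat b, 1 ≤ ν {l} := fun l hl => hP l (hlat l hl) ν hν
  obtain ⟨h1, h2, h3⟩ := hν
  haveI := h1
  have hcount : (lat b).Countable := by
    have : lat b = Set.range fun c : ι → ℤ => ∑ i, (c i : ℝ) • b i := by
      ext x
      simp [lat, eq_comm]
    rw [this]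
    exact Set.countable_range _
  have hml : MeasurableSet (lat b) := hcount.measurableSet
  have hS : MeasurableSet {p : E ι × E ι | p.1 - p.2 ∈ Q.body ∧ p.2 ∉ lat b} :=
    ((measurable_fst.sub measurable_snd) hmA).inter (measurable_snd hml.compl)
  have h0 : ((volume : Measure (E ι)).prod ν) {p | p.1 - p.2 ∈ Q.body ∧ p.2 ∉ lat b} = 0 := by
    rw [Measure.measure_prod_null hS]
    filter_upwards [htile, h2] with x hx1 hx2
    obtain ⟨c, hc, -⟩ := hx1
    have hl : (∑ i, (c i : ℝ) • b i) ∈ lat b := ⟨c, rfl⟩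
    have hc' : (∑ i, (c i : ℝ) • b i) ∈ {t | x - t ∈ Q.body} := hc
    have hsub : Prod.mk x ⁻¹' {p : E ι × E ι | p.1 - p.2 ∈ Q.body ∧ p.2 ∉ lat b} ⊆
        {t | x - t ∈ Q.body} \ {∑ i, (c i : ℝ) • b i} := by
      rintro t ⟨ht1, ht2⟩
      refine ⟨ht1, ?_⟩
      intro h
      rw [mem_singleton_iff] at h
      exact ht2 (h ▸ hl)
    refine measure_mono_null hsub ?_
    rw [measure_diff (singleton_subset_iff.mpr hc') (measurableSet_singleton _).nullMeasurableSet]
    · rw [hx2]
      exact tsub_eq_zero_of_le (hP' _ hl)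
    · have : ν {∑ i, (c i : ℝ) • b i} ≤ ν {t | x - t ∈ Q.body} :=
        measure_mono (singleton_subset_iff.mpr hc')
      rw [hx2] at this
      exact (this.trans_lt ENNReal.one_lt_top).ne
  rw [Measure.prod_apply_symm hS] at h0
  have h4 : ∫⁻ t, volume ((fun x => (x, t)) ⁻¹' {p : E ι × E ι | p.1 - p.2 ∈ Q.body ∧
      p.2 ∉ lat b}) ∂ν = ∫⁻ t, (lat b)ᶜ.indicator (fun _ => volume Q.body) t ∂ν := by
    apply lintegral_congr
    intro t
    by_cases ht : t ∈ lat b
    · have e : ((fun x => (x, t)) ⁻¹' {p : E ι × E ι | p.1 - p.2 ∈ Q.body ∧ p.2 ∉ lat b}) = ∅ := by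
        ext x
        simp [ht]
      rw [e, measure_empty, indicator_of_notMem (by simpa using ht)]
    · have e : ((fun x => (x, t)) ⁻¹' {p : E ι × E ι | p.1 - p.2 ∈ Q.body ∧ p.2 ∉ lat b}) =
          (fun x => x - t) ⁻¹' Q.body := by
        ext x
        simp [ht]
      rw [e, indicator_of_mem (by simpa using ht)]
      simp only [sub_eq_add_neg]
      exact measure_preimage_add_right _ _ _
  rw [h4, lintegral_indicator_const hml.compl] at h0
  exact (mul_eq_zero.mp h0).resolve_left hpos.ne'

end Pool.Agent.Helper18.SPX.G4
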