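import Pool.Agent.Helper64.SPX.Spec

set_option autoImplicit false

open MeasureTheory Filter Topology Set
open scoped InnerProductSpace ENNReal

namespace Pool.Agent.Helper18.SPX.INV

open Pool.Agent.Helper64.SPX

theorem main : S_INV := by
  intro ι κ _ _ T Ω hΩ hS
  obtain ⟨Λ, hort, hcomp⟩ := hS
  set Tc : E ι ≃L[ℝ] E κ := T.toContinuousLinearEquiv with hTc
  have hTT : ∀ x, Tc x = T x := fun x => rfl
  have hemb : MeasurableEmbedding Tc := Tc.toHomeomorph.measurableEmbedding
  haveI iH : ((volume : Measure (E ι)).map Tc).IsAddHaarMeasure := Tc.isAddHaarMeasure_map _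
  obtain ⟨c, hc0, hct, hc⟩ : ∃ c : ℝ≥0∞, c ≠ 0 ∧ c ≠ ∞ ∧
      (volume : Measure (E κ)) = c • ((volume : Measure (E ι)).map Tc) := by
    refine ⟨(Measure.addHaarScalarFactor (volume : Measure (E κ))
      ((volume : Measure (E ι)).map Tc) : ℝ≥0∞), ?_, ENNReal.coe_ne_top, ?_⟩
    · exact_mod_cast (Measure.addHaarScalarFactor_pos_of_isAddHaarMeasure _ _).ne'
    · exact Measure.isAddLeftInvariant_eq_smul _ _
  have himg : (T '' Ω : Set (E κ)) = Tc '' Ω := rfl
  have hmeas : MeasurableSet (Tc '' Ω) := hemb.measurableSet_image.mpr hΩ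
  have hres : (volume : Measure (E κ)).restrict (T '' Ω) =
      c • ((volume : Measure (E ι)).restrict Ω).map Tc := by
    rw [himg, hc, Measure.restrict_smul, Measure.restrict_map hemb.measurable hmeas,
      Set.preimage_image_eq _ Tc.injective]
  have hint : ∀ g : E κ → ℂ, ∫ y in T '' Ω, g y = (c.toReal : ℝ) • ∫ x in Ω, g (T x) := by
    intro g
    rw [hres, integral_smul_measure, hemb.integral_map]
    rfl
  set A : E ι →L[ℝ] E κ := ContinuousLinearMap.adjoint (Tc.symm : E κ →L[ℝ] E ι) with hA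
  have hinn : ∀ a x, ⟪A a, T x⟫_ℝ = ⟪a, x⟫_ℝ := by
    intro a x
    rw [hA, ContinuousLinearMap.adjoint_inner_left]
    congr 1
    exact Tc.symm_apply_apply x
  refine ⟨A '' Λ, ?_, ?_⟩
  · rintro _ ⟨a, ha, rfl⟩ _ ⟨b, hb, rfl⟩ hab
    have hne : a ≠ b := fun h => hab (by rw [h])
    rw [hint]
    have h1 : ∀ x, ee ⟪A a - A b, T x⟫_ℝ = ee ⟪a - b, x⟫_ℝ := by
      intro x
      rw [← map_sub, hinn]
    simp only [h1]
    rw [hort a ha b hb hne, smul_zero]
  · intro f hf h0
    rw [hres] at hf ⊢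
    have hf1 : MemLp f 2 (((volume : Measure (E ι)).restrict Ω).map Tc) := by
      refine MemLp.of_measure_le_smul (c := c⁻¹) (ENNReal.inv_ne_top.mpr hc0) ?_ hf
      rw [smul_smul, ENNReal.inv_mul_cancel hc0 hct, one_smul]
    have hf2 : MemLp (f ∘ Tc) 2 ((volume : Measure (E ι)).restrict Ω) :=
      hemb.memLp_map_measure_iff.mp hf1
    have h1 : (f ∘ Tc) =ᵐ[(volume : Measure (E ι)).restrict Ω] 0 := by
      apply hcomp _ hf2
      intro a ha
      have h2 := h0 (A a) ⟨a, ha, rfl⟩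
      rw [hint] at h2
      have h3 : (c.toReal : ℝ) ≠ 0 := (ENNReal.toReal_pos hc0 hct).ne'
      have h4 := (smul_eq_zero.mp h2).resolve_left h3
      simp only [hinn] at h4
      exact h4
    have h2 : f =ᵐ[((volume : Measure (E ι)).restrict Ω).map Tc] 0 := by
      rw [Filter.EventuallyEq, hemb.ae_map_iff]
      exact h1
    exact Measure.ae_smul_measure h2 c

end Pool.Agent.Helper18.SPX.INV
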